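import Pool.Agent.H96.Reps

/-!
# Density thresholds for sets whose elements are decided by circuits of depth three

`reps A n` is the number of ordered pairs of elements of `A` with sum `n`. The elements of `A`
below `2 ^ m` are described by an OR of at most `L` formulas in `k`-CNF in the `m` binary digits
(a circuit of depth three with bottom fan-in `k` and top fan-in `L`; there may be any number of
clauses). (1) If `A` has more than `L 2 ^ (e m)` elements below `2 ^ m`, some `n < 2 ^ (m + 1)` has at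
least `2 ^ t` representations, for every `t` and large `m`, where `e > 0` is arbitrary for `k ≤ 2`,
`e = 2 / 5` for `k = 3`, `e = 4 / 7` for `k = 4`, `e = 2 / 3` for `k = 5` and `e = 1 - 5 / (4 k)` in
general. (2) So every `g ≤ N ^ α` forces unbounded representations inside the class of the sets
`A` which are described in this way for infinitely many `m` with `L ≤ 2 ^ (β m)`, if
`α + β < 1 / 10` and `k = 3`, or `α + β < 1 / 2` and `k ≤ 2`.

Method: if a set described by a `k`-CNF has more elements than Paturi, Pudlák, Saks and Zane allow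
for locally isolated solutions, then it contains `z` and all strings obtained from `z` by flipping
the bits in the union of some of `t` disjoint sets `W_1, …, W_t`; complementary choices have the
same sum.
-/

set_option autoImplicit false

namespace Pool.Agent.Results.MP_491344_nt.DepthThreeThresholds

open Pool.Agent.H96.Ppz Pool.Agent.H96.Reps

theorem result :
    -- (1) many representations
    (∀ (k t : ℕ) (e : ℝ),
      ((k ≤ 2 ∧ 0 < e) ∨ (k = 3 ∧ 2 / 5 ≤ e) ∨ (k = 4 ∧ 4 / 7 ≤ e) ∨ (k = 5 ∧ 2 / 3 ≤ e) ∨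
        (2 ≤ k ∧ 1 - 5 / (4 * (k : ℝ)) ≤ e)) → e < 1 →
      ∃ m₀ : ℕ, ∀ (m L : ℕ) (A : Set ℕ), m₀ ≤ m → Depth3 L k (digits m A) →
        (L : ℝ) * ((2 : ℝ) ^ m) ^ e < Nat.card {a : ℕ // a ∈ A ∧ a < 2 ^ m} →
        ∃ n < 2 ^ (m + 1), 2 ^ t ≤ reps A n) ∧
    -- (2) density thresholds
    (∀ (k : ℕ) (α β : ℝ), 0 ≤ β →
      ((k ≤ 2 ∧ α + β < 1 / 2) ∨ (k = 3 ∧ α + β < 1 / 10)) →
      ∀ (g : ℕ → ℝ) (A : Set ℕ),
      (∀ᶠ N : ℕ in Filter.atTop, 0 < g N) →
      (∀ᶠ N : ℕ in Filter.atTop, g N ≤ (N : ℝ) ^ α) →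
      (∃ C : ℝ, 0 < C ∧ ∀ᶠ N : ℕ in Filter.atTop,
        (N : ℝ) ^ (1 / 2 : ℝ) / g N ≤ C * Nat.card {a : ℕ // a ∈ A ∧ 1 ≤ a ∧ a ≤ N}) →
      (∃ᶠ m : ℕ in Filter.atTop, ∃ L : ℕ, (L : ℝ) ≤ ((2 : ℝ) ^ m) ^ β ∧
        Depth3 L k (digits m A)) →
      ∀ K : ℕ, ∃ n, K ≤ reps A n) :=
  ⟨reps_general, fun k α β hβ hk g A hg0 hg hA hD => threshold k α β hβ hk g A hg0 hg hA hD⟩

end Pool.Agent.Results.MP_491344_nt.DepthThreeThresholds
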