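import Pool.Agent.H96.RepsTame

/-!
# Density thresholds for sets whose binary digits form unions of tame sets

`reps A n` is the number of ordered pairs of elements of `A` with sum `n`. A set of strings of
digits is tame with `c` classes if, for a preferred value of every digit and a partition of the
places into free places and `c` classes, it is closed under the change of a digit at a free place
to the preferred value and under the exchange (relative to the preferred values) of two digits
of one class. Examples: sets monotone up to the orientation of the places, in particular the sets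
given by one linear threshold gate; sets which depend only on the numbers of ones in `c` blocks of
places. (1) If the elements of `A` below `2 ^ m` are a union of `L` such sets and their number is
larger than `L 2 ^ c (m + 1) ^ (t - 1)`, then some `n < 2 ^ (m + 1)` has at least `2 ^ t`
representations. (2) So every `g ≤ N ^ α` forces unbounded representations inside the class of the
sets for which `L 2 ^ c ≤ 2 ^ (β m)` for infinitely many `m`, when `α + β < 1 / 2`.

Method: a string of a tame set has `t` disjoint moves, all of whose combinations stay in the set,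
unless it is described by the preferred values, a side for every class, and less than `t`
exceptions. Complementary combinations have the same sum.
-/

set_option autoImplicit false

namespace Pool.Agent.Results.MP_491344_nt.MonotoneOrSymmetric

open Pool.Agent.H96.Tame Pool.Agent.H96.Reps

theorem result :
    -- (1) many representations
    (∀ (m c t L : ℕ) (A : Set ℕ), TameUnion L c (digits m A) →
      L * 2 ^ c * (m + 1) ^ (t - 1) < Nat.card {a : ℕ // a ∈ A ∧ a < 2 ^ m} →
      ∃ n < 2 ^ (m + 1), 2 ^ t ≤ reps A n) ∧
    -- (2) density thresholds
    (∀ (α β : ℝ), 0 ≤ β → α + β < 1 / 2 →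
      ∀ (g : ℕ → ℝ) (A : Set ℕ),
      (∀ᶠ N : ℕ in Filter.atTop, 0 < g N) →
      (∀ᶠ N : ℕ in Filter.atTop, g N ≤ (N : ℝ) ^ α) →
      (∃ C : ℝ, 0 < C ∧ ∀ᶠ N : ℕ in Filter.atTop,
        (N : ℝ) ^ (1 / 2 : ℝ) / g N ≤ C * Nat.card {a : ℕ // a ∈ A ∧ 1 ≤ a ∧ a ≤ N}) →
      (∃ᶠ m : ℕ in Filter.atTop, ∃ L c : ℕ, (L : ℝ) * 2 ^ c ≤ ((2 : ℝ) ^ m) ^ β ∧
        TameUnion L c (digits m A)) →
      ∀ K : ℕ, ∃ n, K ≤ reps A n) :=
  ⟨tame_reps_bound, fun α β hβ hαβ g A hg0 hg hA hD =>
    tame_threshold_reps α β hβ hαβ g A hg0 hg hA hD⟩

end Pool.Agent.Results.MP_491344_nt.MonotoneOrSymmetric
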