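import Pool.Agent.R448.Thr

/-!
# MP_491344_nt: density thresholds inside sets with economical coverings

`rep A n` is the number of ordered pairs of elements of `A` with sum `n`. `ForcesIn S g` says that
`g` forces unbounded representations for the subsets of `S`: every `A ⊆ S` with
`|A ∩ [1, N]| ≥ c √N / g N` for some `c > 0` and arbitrarily large `N` has unbounded `rep A`.

1. Suppose that for `i < k` and all large `N` the set `S i ∩ [0, N]` is covered, for `j < l`, by
   `x j` translates of a set `B j` of integers, where `|B (j+1) - B (j+1)| ≥ q |B j - B j|`, `q > 1`,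
   and `∑ j, N / (x j ^ 2 |B j - B j|) ≥ σ i N`. Then every `g` with `g(N)² = o(σ i N)` for all
   `i < k` forces unbounded representations inside `⋃ i, S i`.
2. Let `arcs S α m` be the number of arcs `[i / m, (i + 1) / m)` modulo one visited by the numbers
   `s α`, `s ∈ S`. If for each `i` there are a lacunary sequence `(m j)` and `α j` of order at least
   `m j` modulo one with `∑ j, m j / arcs (S i) (α j) (m j) ^ 2 = ∞`, then some `g` with
   `g(N) → ∞` forces unbounded representations inside `⋃ i, S i`.

Proof: by Cauchy–Schwarz for the number of pairs with a given difference against a weight, the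
contributions of different scales to a lower bound for `rep A` add up (`Pool.Agent.R448.main`).
-/

set_option autoImplicit false

namespace Pool.Agent.Results.MP_491344_nt.SmallDoublingThresholds

open Filter Finset Pointwise
open Pool.Agent.TH314.ET (rep ForcesIn)
open Pool.Agent.R448 (Covers arcs)

/-- **Thresholds inside sets with economical coverings.** -/
theorem result :
    -- 1. explicit thresholds from coverings by translates of sets of small doubling
    (∀ (k : ℕ) (S : Fin k → Set ℕ) (q : ℝ) (g : ℕ → ℝ) (σ : Fin k → ℕ → ℝ), 1 < q →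
      (∀ᶠ N in atTop, 0 < g N) →
      (∀ i, ∀ᶠ N : ℕ in atTop, ∃ (l : ℕ) (X B : ℕ → Finset ℤ), Covers (S i) N q l X B ∧
        σ i N ≤ ∑ j ∈ range l, (N : ℝ) / (((X j).card : ℝ) ^ 2 * (B j - B j).card)) →
      (∀ i, Tendsto (fun N => σ i N / g N ^ 2) atTop atTop) →
      ForcesIn (⋃ i, S i) g) ∧
    -- 2. some threshold tends to infinity inside sets whose multiples visit few arcs
    (∀ (k : ℕ) (S : Fin k → Set ℕ) (q : ℝ) (α : Fin k → ℕ → ℝ) (m : Fin k → ℕ → ℕ), 1 < q →
      (∀ i j, 0 < m i j) → (∀ i j, q * (m i j : ℝ) ≤ m i (j + 1)) →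
      (∀ i j, ∀ d : ℕ, 0 < d → d < m i j → ∀ z : ℤ, (d : ℝ) * α i j ≠ z) →
      (∀ i, ¬ Summable fun j => (m i j : ℝ) / (arcs (S i) (α i j) (m i j) : ℝ) ^ 2) →
      ∃ g : ℕ → ℝ, Tendsto g atTop atTop ∧ ForcesIn (⋃ i, S i) g) := by
  refine ⟨?_, ?_⟩
  · intro k S q g σ hq hg hcov hσ
    exact Pool.Agent.R448.forces_of_covers S q hq g hg σ hcov hσ
  · intro k S q α m hq hm hlac hα hdiv
    exact Pool.Agent.R448.exists_threshold_arcs S q hq α m hm hlac hα hdiv

end Pool.Agent.Results.MP_491344_nt.SmallDoublingThresholds
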