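import Pool.Agent.R756.KT.CubeAsy

/-!
# Density thresholds for sets whose digits are given by tree tensor networks

`reps A n` is the number of ordered pairs of elements of `A` with sum `n`. The elements of `A` below
`2 ^ m` are described by a union of `L` sets of strings of `m` digits, each of which is the support of
a function computed by a read-once tree tensor network of bond dimension at most `w` over some field:
the leaves of a binary tree read one digit each, in any arrangement, and vectors of dimension `w` are
combined at the inner nodes by bilinear maps; there may be cancellations.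

(1) If `m 2^J ≤ 3^J` (for instance `J = 2 ⌈log₂ m⌉`) and `A` has more than
`L (2 w^(2^(t+1)))^((2J+2)^t)` elements below `2^m`, then some `n < 2^(m+1)` has at least `2^(t+1)`
representations. So for bounded representation functions, and `L = 1`, a set computed with bounded bond
dimension has at most `exp ((log log N)^O(1))` elements up to `N`.

(2) Every `g ≤ N ^ α` forces unbounded representations inside the class of the sets which are
described for infinitely many `m` by `L ≤ 2^(β m)` networks with `w ≤ 2^(m^(1-η))`, when
`α + β < 1 / 2` and `η > 0`.

Proof. A `t`-dimensional cube consists of the strings `z` which agree with one of two given strings in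
each of `t` classes of places; complementary elements of a cube have the same sum. Cut the tree into
two parts `P`, `Q` with at least a third of the places each. The matrix of the function has rank at
most `w`. If a row `u` does not belong to a basis of the rows, then every element of `A` in this row
is in the same column as an element of one of the `w` basis rows `e`, and the elements common to the
rows `u` and `e` contain no `t`-dimensional cube if `A` contains no `(t + 1)`-dimensional one. They
form the support of the product of two sections of the function, of bond dimension `w²`. The number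
of the nonzero rows is at most the sum of the numbers of elements in `w` basis columns. This gives a
recursion over the levels of the tree and over `t`.
-/

set_option autoImplicit false

namespace Pool.Agent.Results.MP_491344_nt.TensorNetworks

open Pool.Agent.R756.KT Pool.Agent.H96.Reps

theorem result :
    -- (1) many representations
    (∀ (m t w L J : ℕ), 1 ≤ w → m * 2 ^ J ≤ 3 ^ J → ∀ A : Set ℕ,
      TreeUnion L w (digits m A) →
      L * (2 * w ^ (2 ^ (t + 1))) ^ ((2 * J + 2) ^ t) <
        Nat.card {a : ℕ // a ∈ A ∧ a < 2 ^ m} →
      ∃ n < 2 ^ (m + 1), 2 ^ (t + 1) ≤ reps A n) ∧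
    -- (2) density thresholds
    (∀ (α β η : ℝ), 0 < η → η ≤ 1 → α + β < 1 / 2 → 0 ≤ β →
      ∀ (g : ℕ → ℝ) (A : Set ℕ),
      (∀ᶠ N : ℕ in Filter.atTop, 0 < g N) →
      (∀ᶠ N : ℕ in Filter.atTop, g N ≤ (N : ℝ) ^ α) →
      (∃ C : ℝ, 0 < C ∧ ∀ᶠ N : ℕ in Filter.atTop,
        (N : ℝ) ^ (1 / 2 : ℝ) / g N ≤ C * Nat.card {a : ℕ // a ∈ A ∧ 1 ≤ a ∧ a ≤ N}) →
      (∃ᶠ m : ℕ in Filter.atTop, ∃ L w : ℕ, (L : ℝ) ≤ ((2 : ℝ) ^ m) ^ β ∧
        (w : ℝ) ≤ (2 : ℝ) ^ ((m : ℝ) ^ (1 - η)) ∧ TreeUnion L w (digits m A)) →
      ∀ K : ℕ, ∃ n, K ≤ reps A n) :=
  ⟨fun m t w L J hw hJ A hA h => tree_reps_bound m t w L J hw hJ A hA h,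
    fun α β η hη hη1 hαβ hβ g A hg0 hg hA hD =>
      tree_threshold_reps α β η hη hη1 hαβ hβ g A hg0 hg hA hD⟩

end Pool.Agent.Results.MP_491344_nt.TensorNetworks
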